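import Pool.Agent.U663.SpL.Cmp
import Pool.Agent.H382R2.Final0

set_option autoImplicit false

/-!
# Spacing laws: the ordinates of the zeros of zeta
-/

namespace Pool.Agent.U663.SpL

open Filter Topology Set

/-- the ordinates of the zeros of zeta -/
def ZO : Set ℝ := {y | ∃ s : ℂ, 0 < s.re ∧ s.re < 1 ∧ riemannZeta s = 0 ∧ s.im = y}

lemma NZ_split {a b : ℝ} (ha : 1 ≤ a) (hab : a ≤ b) :
    SG.NZ b = SG.NZ a + H370.NN riemannZeta a b := by
  classical
  refine le_antisymm (SG.NZ_le_add a b ha) ?_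
  have hfin := H370.zset_finite H370.good_zeta a b ha
  have hNN : H370.NN riemannZeta a b = ∑ s ∈ hfin.toFinset, SG.zmult s :=
    finsum_mem_eq_finite_toFinset_sum _ hfin
  rw [hNN]
  refine SG.NZ_add_le a b hab _ fun s hs => ?_
  rw [Set.Finite.mem_toFinset] at hs
  exact ⟨⟨hs.2.2.2.2, hs.1, hs.2.1, (by linarith [hs.2.2.1]), hs.2.2.2.1⟩, hs.2.2.1⟩

lemma zeta_asy : ∃ C T0 : ℝ, ∀ T, T0 ≤ T → |(SG.NZ T : ℝ) - X T| ≤ C * T := by
  obtain ⟨C, T0, hC, hT0, h⟩ := H370.nn_asymp H370.good_zeta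
  have hpi := Real.pi_gt_three
  set B : ℝ := (SG.NZ (2 * T0) : ℝ) + X (2 * T0) with hB
  have hl2 : Real.log 2 < 1 := by
    have := Real.log_two_lt_d9
    linarith
  have hl20 : 0 < Real.log 2 := Real.log_pos (by norm_num)
  have hstep : ∀ T : ℝ, T0 ≤ T → |(SG.NZ (2 * T) : ℝ) - X (2 * T)| ≤
      |(SG.NZ T : ℝ) - X T| + (C + 1) * T := by
    intro T hT
    have h1 := h T hT T (2 * T) le_rfl (by linarith) (by linarith) le_rfl
    have h2 := NZ_split (a := T) (b := 2 * T) (by linarith) (by linarith)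
    have h3 : (SG.NZ (2 * T) : ℝ) = SG.NZ T + H370.NN riemannZeta T (2 * T) := by
      exact_mod_cast h2
    have h4 : X (2 * T) = X T + T * Real.log T / (2 * Real.pi) + T * Real.log 2 / Real.pi := by
      unfold X
      rw [Real.log_mul (by norm_num) (by linarith)]
      field_simp
      ring
    have hTp : 0 < T := by linarith
    have h5 : 0 ≤ T * Real.log 2 / Real.pi := by positivity
    have h6 : T * Real.log 2 / Real.pi ≤ T := by
      rw [div_le_iff₀ (by positivity)]
      nlinarith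
    have h7 : (SG.NZ (2 * T) : ℝ) - X (2 * T) = ((SG.NZ T : ℝ) - X T) +
        (((H370.NN riemannZeta T (2 * T) : ℕ) : ℝ) - T * Real.log T / (2 * Real.pi)) -
        T * Real.log 2 / Real.pi := by
      rw [h3, h4]
      ring
    rw [h7]
    have e1 := abs_sub (((SG.NZ T : ℝ) - X T) +
        (((H370.NN riemannZeta T (2 * T) : ℕ) : ℝ) - T * Real.log T / (2 * Real.pi)))
        (T * Real.log 2 / Real.pi)
    have e2 := abs_add_le ((SG.NZ T : ℝ) - X T)
        (((H370.NN riemannZeta T (2 * T) : ℕ) : ℝ) - T * Real.log T / (2 * Real.pi))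
    rw [abs_of_nonneg h5] at e1
    linarith
  have hX2 : 0 < X (2 * T0) := X_pos (by linarith)
  have hB0 : 0 ≤ B := by positivity
  set C' : ℝ := max B (C + 1) with hC'
  have hC1 : B ≤ C' := le_max_left _ _
  have hC2 : C + 1 ≤ C' := le_max_right _ _
  have hbase : ∀ T : ℝ, T0 ≤ T → T ≤ 2 * T0 → |(SG.NZ T : ℝ) - X T| ≤ C' * T := by
    intro T h1 h2
    have h3 : (SG.NZ T : ℝ) ≤ SG.NZ (2 * T0) := by exact_mod_cast SG.NZ_mono h2
    have h4 : 0 < X T := X_pos (by linarith)
    have h5 : X T ≤ X (2 * T0) := by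
      unfold X
      apply div_le_div_of_nonneg_right _ (by positivity)
      have : Real.log T ≤ Real.log (2 * T0) := Real.log_le_log (by linarith) h2
      have h0 : 0 < Real.log T := Real.log_pos (by linarith)
      exact mul_le_mul h2 this h0.le (by linarith)
    have h6 : (0 : ℝ) ≤ SG.NZ T := Nat.cast_nonneg _
    have h7 : |(SG.NZ T : ℝ) - X T| ≤ B := by
      rw [abs_le]
      constructor <;> linarith [hX2, (Nat.cast_nonneg (SG.NZ (2 * T0)) : (0 : ℝ) ≤ _)]
    have h8 : B ≤ C' * T := by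
      calc B ≤ C' := hC1
        _ = C' * 1 := (mul_one _).symm
        _ ≤ C' * T := mul_le_mul_of_nonneg_left (by linarith) (hB0.trans hC1)
    exact h7.trans h8
  have hind : ∀ n : ℕ, ∀ T : ℝ, T0 ≤ T → T ≤ 2 ^ (n + 1) * T0 → |(SG.NZ T : ℝ) - X T| ≤ C' * T := by
    intro n
    induction n with
    | zero =>
      intro T h1 h2
      exact hbase T h1 (by simpa using h2)
    | succ n ih =>
      intro T h1 h2
      rcases le_or_gt T (2 * T0) with h3 | h3
      · exact hbase T h1 h3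
      · have h4 : T0 ≤ T / 2 := by linarith
        have h5 : T / 2 ≤ 2 ^ (n + 1) * T0 := by
          rw [pow_succ] at h2
          linarith
        have h6 := ih (T / 2) h4 h5
        have h7 := hstep (T / 2) h4
        have e : 2 * (T / 2) = T := by ring
        rw [e] at h7
        have h8 : (C + 1) * (T / 2) ≤ C' * (T / 2) :=
          mul_le_mul_of_nonneg_right hC2 (by linarith)
        linarith
  refine ⟨C', T0, fun T hT => ?_⟩
  obtain ⟨n, hn⟩ := pow_unbounded_of_one_lt (T / T0) (show (1 : ℝ) < 2 by norm_num)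
  refine hind n T hT ?_
  rw [div_lt_iff₀ (by linarith)] at hn
  have : (2 : ℝ) ^ n * T0 ≤ 2 ^ (n + 1) * T0 := by
    apply mul_le_mul_of_nonneg_right _ (by linarith)
    exact pow_le_pow_right₀ (by norm_num) (by omega)
  linarith

lemma zeta_jump {y : ℝ} (hy : 0 < y) : y ∈ ZO ↔ ∀ t, t < y → SG.NZ t < SG.NZ y := by
  classical
  constructor
  · rintro ⟨s, h1, h2, h3, rfl⟩ t ht
    have a1 := SG.jump_one h3 h1 h2 hy t ht
    have a2 := SG.zmult_pos hy h3
    omega
  · intro h
    by_contra hcon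
    have hlt : ∀ s ∈ SG.ZS y, s.im < y := by
      rintro s ⟨h1, h2, h3, h4, h5⟩
      rcases h5.lt_or_eq with h6 | h6
      · exact h6
      · exact absurd ⟨s, h2, h3, h1, h6⟩ hcon
    obtain ⟨t, ht, hts⟩ : ∃ t, t < y ∧ ∀ s ∈ SG.ZS y, s.im ≤ t := by
      rcases (SG.ZS y).eq_empty_or_nonempty with h0 | h0
      · exact ⟨y - 1, by linarith, fun s hs => by rw [h0] at hs; exact absurd hs (Set.notMem_empty s)⟩
      · obtain ⟨s0, hs0, hmax⟩ := (SG.ZS_finite y).exists_maximalFor (fun s => s.im) _ h0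
        refine ⟨s0.im, hlt s0 hs0, fun s hs => ?_⟩
        by_contra hc
        push Not at hc
        have := hmax hs hc.le
        linarith
    have h1 := h t ht
    have h2 : SG.NZ y ≤ SG.NZ t := by
      rw [SG.NZ_eq, SG.NZ_eq]
      apply Finset.sum_le_sum_of_subset
      intro s hs
      rw [Set.Finite.mem_toFinset] at hs ⊢
      exact ⟨hs.1, hs.2.1, hs.2.2.1, hs.2.2.2.1, hts s hs⟩
    omega

theorem zeta_cnt : Cnt SG.NZ SG.ord ZO where
  iff := fun _ hn t => SG.ord_le_iff hn t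
  pos := fun _ hn => SG.ord_pos hn
  jump := fun _ hy => zeta_jump hy
  asy := zeta_asy

end Pool.Agent.U663.SpL
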