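import Mathlib

set_option autoImplicit false

/-!
# Spacing laws: change of the normalisation
-/

namespace Pool.Agent.U663.SpL

open Filter Topology Set

/-- the main term of the number of zeros -/
noncomputable def X (T : ℝ) : ℝ := T * Real.log T / (2 * Real.pi)

lemma X_pos {T : ℝ} (hT : 1 < T) : 0 < X T := by
  unfold X
  have := Real.log_pos hT
  have := Real.pi_pos
  positivity

lemma TL_X (T : ℝ) : T * Real.log T = 2 * Real.pi * X T := by
  unfold X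
  have := Real.pi_pos
  field_simp

/-- pairs of consecutive different elements of a set -/
def CP (A : Set ℝ) : Set (ℝ × ℝ) :=
  {p | p.1 < p.2 ∧ p.1 ∈ A ∧ p.2 ∈ A ∧ ∀ y ∈ A, ¬ (p.1 < y ∧ y < p.2)}

/-- consecutive pairs up to `T`, normalised distance between `α` and `β` -/
def SP (A : Set ℝ) (T α β : ℝ) : Set (ℝ × ℝ) :=
  {p | p ∈ CP A ∧ 0 < p.1 ∧ p.2 ≤ T ∧ α ≤ (p.2 - p.1) * (Real.log T / (2 * Real.pi)) ∧
    (p.2 - p.1) * (Real.log T / (2 * Real.pi)) ≤ β}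

/-- the unfolded gaps -/
noncomputable def dl (γ : ℕ → ℝ) (n : ℕ) : ℝ :=
  (γ (n + 1) - γ n) / (2 * Real.pi) * Real.log (γ n / (2 * Real.pi))

/-- the indices `1 ≤ n ≤ N` with gap in `[α, β]` -/
def IN (γ : ℕ → ℝ) (N : ℕ) (α β : ℝ) : Set ℕ := {n | 1 ≤ n ∧ n ≤ N ∧ dl γ n ∈ Icc α β}

lemma IN_fin (γ : ℕ → ℝ) (N : ℕ) (α β : ℝ) : (IN γ N α β).Finite :=
  (Set.finite_le_nat N).subset fun _ h => h.2.1

/-- transfer of a law -/
theorem transfer {f g : ℝ → ℝ → ℝ → ℝ} {F : ℝ → ℝ} (hF : ContinuousOn F (Ioi 0))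
    (h1 : ∀ α β ε : ℝ, 0 < ε → ε < α → ∀ᶠ T : ℝ in atTop,
      g T α β ≤ f T (α - ε) (β + ε) + ε * (T * Real.log T))
    (h2 : ∀ α β ε : ℝ, 0 < ε → ε < α → ∀ᶠ T : ℝ in atTop,
      f T α β ≤ g T (α - ε) (β + ε) + ε * (T * Real.log T))
    (hf : ∀ α β : ℝ, 0 < α → α < β → Tendsto (fun T => f T α β / X T) atTop (𝓝 (F β - F α)))
    {α β : ℝ} (hα : 0 < α) (hβ : α < β) :
    Tendsto (fun T => g T α β / X T) atTop (𝓝 (F β - F α)) := by
  rw [Metric.tendsto_atTop']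
  intro η hη
  have hpi := Real.pi_pos
  have hβ0 : 0 < β := hα.trans hβ
  obtain ⟨ρ1, hρ1, c1⟩ := Metric.continuousAt_iff.1 (hF.continuousAt (Ioi_mem_nhds hα)) (η / 8)
    (by positivity)
  obtain ⟨ρ2, hρ2, c2⟩ := Metric.continuousAt_iff.1 (hF.continuousAt (Ioi_mem_nhds hβ0)) (η / 8)
    (by positivity)
  obtain ⟨e, he⟩ : ∃ e, e = min (min (ρ1 / 2) (ρ2 / 2)) (min (min (α / 4) ((β - α) / 4))
    (η / (16 * Real.pi))) := ⟨_, rfl⟩
  have hba : 0 < β - α := by linarith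
  have he0 : 0 < e := by rw [he]; positivity
  have he1 : e ≤ ρ1 / 2 := by rw [he]; exact (min_le_left _ _).trans (min_le_left _ _)
  have he2 : e ≤ ρ2 / 2 := by rw [he]; exact (min_le_left _ _).trans (min_le_right _ _)
  have he3 : e ≤ α / 4 := by
    rw [he]; exact (min_le_right _ _).trans ((min_le_left _ _).trans (min_le_left _ _))
  have he4 : e ≤ (β - α) / 4 := by
    rw [he]; exact (min_le_right _ _).trans ((min_le_left _ _).trans (min_le_right _ _))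
  have he5 : e ≤ η / (16 * Real.pi) := by rw [he]; exact (min_le_right _ _).trans (min_le_right _ _)
  have he6 : 2 * Real.pi * e ≤ η / 8 := by
    rw [le_div_iff₀ (by positivity)] at he5
    linarith
  have d1 : |F (α - e) - F α| < η / 8 := by
    have := c1 (x := α - e) (by rw [Real.dist_eq, sub_sub_cancel_left, abs_neg, abs_of_pos he0]; linarith)
    rwa [Real.dist_eq] at this
  have d2 : |F (α + e) - F α| < η / 8 := by
    have := c1 (x := α + e) (by rw [Real.dist_eq, add_sub_cancel_left, abs_of_pos he0]; linarith)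
    rwa [Real.dist_eq] at this
  have d3 : |F (β - e) - F β| < η / 8 := by
    have := c2 (x := β - e) (by rw [Real.dist_eq, sub_sub_cancel_left, abs_neg, abs_of_pos he0]; linarith)
    rwa [Real.dist_eq] at this
  have d4 : |F (β + e) - F β| < η / 8 := by
    have := c2 (x := β + e) (by rw [Real.dist_eq, add_sub_cancel_left, abs_of_pos he0]; linarith)
    rwa [Real.dist_eq] at this
  have f1 := hf (α - e) (β + e) (by linarith) (by linarith)
  have f2 := hf (α + e) (β - e) (by linarith) (by linarith)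
  rw [Metric.tendsto_atTop'] at f1 f2
  obtain ⟨T1, hT1⟩ := f1 (η / 4) (by positivity)
  obtain ⟨T2, hT2⟩ := f2 (η / 4) (by positivity)
  obtain ⟨T3, hT3⟩ := eventually_atTop.1 (h1 α β e he0 (by linarith))
  obtain ⟨T4, hT4⟩ := eventually_atTop.1 (h2 (α + e) (β - e) e he0 (by linarith))
  refine ⟨max (max T1 T2) (max (max T3 T4) 1), fun T hT => ?_⟩
  have g1 : T1 < T := lt_of_le_of_lt ((le_max_left _ _).trans (le_max_left _ _)) hT
  have g2 : T2 < T := lt_of_le_of_lt ((le_max_right _ _).trans (le_max_left _ _)) hT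
  have g3 : T3 < T := lt_of_le_of_lt ((le_max_left _ _).trans ((le_max_left _ _).trans
    (le_max_right _ _))) hT
  have g4 : T4 < T := lt_of_le_of_lt ((le_max_right _ _).trans ((le_max_left _ _).trans
    (le_max_right _ _))) hT
  have g5 : 1 < T := lt_of_le_of_lt ((le_max_right _ _).trans (le_max_right _ _)) hT
  have hX := X_pos g5
  have k1 := hT1 T g1
  have k2 := hT2 T g2
  have k3 := hT3 T g3.le
  have k4 := hT4 T g4.le
  rw [Real.dist_eq] at k1 k2 ⊢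
  rw [add_sub_cancel_right, sub_add_cancel] at k4
  rw [TL_X] at k3 k4
  have m3 : g T α β / X T ≤ f T (α - e) (β + e) / X T + 2 * Real.pi * e := by
    rw [div_le_iff₀ hX, add_mul, div_mul_cancel₀ _ hX.ne']
    linarith
  have m4 : f T (α + e) (β - e) / X T ≤ g T α β / X T + 2 * Real.pi * e := by
    rw [div_le_iff₀ hX, add_mul, div_mul_cancel₀ _ hX.ne']
    linarith
  have k1' := abs_lt.1 k1
  have k2' := abs_lt.1 k2
  have d1' := abs_lt.1 d1
  have d2' := abs_lt.1 d2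
  have d3' := abs_lt.1 d3
  have d4' := abs_lt.1 d4
  rw [abs_lt]
  constructor
  · linarith [k2'.1, d2'.1, d2'.2, d3'.1, d3'.2]
  · linarith [k1'.2, d1'.1, d1'.2, d4'.1, d4'.2]

/-- the counting function, the enumeration and the set of the ordinates -/
structure Cnt (NZ : ℝ → ℕ) (γ : ℕ → ℝ) (A : Set ℝ) : Prop where
  iff : ∀ n, 1 ≤ n → ∀ t, γ n ≤ t ↔ n ≤ NZ t
  pos : ∀ n, 1 ≤ n → 0 < γ n
  jump : ∀ y, 0 < y → (y ∈ A ↔ ∀ t, t < y → NZ t < NZ y)
  asy : ∃ C T0 : ℝ, ∀ T, T0 ≤ T → |(NZ T : ℝ) - X T| ≤ C * T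

section

variable {NZ : ℝ → ℕ} {γ : ℕ → ℝ} {A : Set ℝ} (h : Cnt NZ γ A)

include h

lemma Cnt.mono {a b : ℝ} (hab : a ≤ b) : NZ a ≤ NZ b := by
  rcases Nat.eq_zero_or_pos (NZ a) with h0 | h0
  · rw [h0]
    exact Nat.zero_le _
  · exact (h.iff _ h0 b).1 (((h.iff _ h0 a).2 le_rfl).trans hab)

lemma Cnt.lt_iff {n : ℕ} (hn : 1 ≤ n) (t : ℝ) : t < γ n ↔ NZ t < n := by
  rw [← not_le, h.iff n hn, not_le]

lemma Cnt.mem {n : ℕ} (hn : 1 ≤ n) : γ n ∈ A := by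
  rw [h.jump _ (h.pos n hn)]
  intro t ht
  exact lt_of_lt_of_le ((h.lt_iff hn t).1 ht) ((h.iff n hn _).1 le_rfl)

lemma Cnt.one_le {y : ℝ} (hy : 0 < y) (hA : y ∈ A) : 1 ≤ NZ y :=
  lt_of_le_of_lt (Nat.zero_le _) ((h.jump y hy).1 hA (y - 1) (by linarith))

lemma Cnt.ord_NZ {y : ℝ} (hy : 0 < y) (hA : y ∈ A) : γ (NZ y) = y := by
  have h1 := h.one_le hy hA
  refine le_antisymm ((h.iff _ h1 y).2 le_rfl) ?_
  by_contra hcon
  push Not at hcon
  have h2 := (h.jump y hy).1 hA _ hcon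
  have h3 := (h.iff _ h1 (γ (NZ y))).1 le_rfl
  omega

lemma Cnt.lt_next (y : ℝ) : y < γ (NZ y + 1) := by
  rw [h.lt_iff (by omega)]
  omega

/-- a consecutive pair comes from an index -/
lemma Cnt.of_pair {p : ℝ × ℝ} (hp : p ∈ CP A) (h0 : 0 < p.1) :
    1 ≤ NZ p.1 ∧ γ (NZ p.1) = p.1 ∧ γ (NZ p.1 + 1) = p.2 := by
  obtain ⟨h1, h2, h3, h4⟩ := hp
  have a1 := h.one_le h0 h2
  refine ⟨a1, h.ord_NZ h0 h2, le_antisymm ?_ ?_⟩
  · rw [h.iff _ (by omega)]
    have := (h.jump p.2 (h0.trans h1)).1 h3 p.1 h1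
    omega
  · by_contra hcon
    push Not at hcon
    exact h4 _ (h.mem (n := NZ p.1 + 1) (by omega)) ⟨h.lt_next p.1, hcon⟩

/-- an index gives a consecutive pair -/
lemma Cnt.to_pair {n : ℕ} (hn : 1 ≤ n) (hlt : γ n < γ (n + 1)) : (γ n, γ (n + 1)) ∈ CP A := by
  refine ⟨hlt, h.mem hn, h.mem (by omega), fun y hy hy2 => ?_⟩
  obtain ⟨b1, b2⟩ := hy2
  have b0 : 0 < y := (h.pos n hn).trans b1
  have b3 : NZ (γ n) < NZ y := (h.jump y b0).1 hy _ b1
  have b4 := (h.iff n hn (γ n)).1 le_rfl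
  have b5 : NZ y < n + 1 := (h.lt_iff (by omega) y).1 b2
  omega

/-- injectivity -/
lemma Cnt.inj {n m : ℕ} (hn : 1 ≤ n) (hm : 1 ≤ m) (hn' : γ n < γ (n + 1)) (hm' : γ m < γ (m + 1))
    (he : γ n = γ m) : n = m := by
  have key : ∀ {n m : ℕ}, 1 ≤ n → 1 ≤ m → γ n < γ (n + 1) → γ n = γ m → n < m → False := by
    intro n m hn hm hn' he hlt
    have b1 := (h.iff m hm (γ n)).1 he.ge
    have b2 := (h.lt_iff (by omega) (γ n)).1 hn'
    omega
  rcases lt_trichotomy n m with h1 | h1 | h1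
  · exact (key hn hm hn' he h1).elim
  · exact h1
  · exact (key hm hn hm' he.symm h1).elim

lemma Cnt.NZ_fin (t : ℝ) : {n : ℕ | 1 ≤ n ∧ γ n ≤ t}.Finite :=
  (Set.finite_le_nat (NZ t)).subset fun n hn => (h.iff n hn.1 t).1 hn.2

lemma Cnt.NZ_card (t : ℝ) : {n : ℕ | 1 ≤ n ∧ γ n ≤ t}.ncard = NZ t := by
  have e : {n : ℕ | 1 ≤ n ∧ γ n ≤ t} = ↑(Finset.Icc 1 (NZ t)) := by
    ext n
    rw [Finset.coe_Icc]
    constructor
    · rintro ⟨h1, h2⟩
      exact ⟨h1, (h.iff n h1 t).1 h2⟩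
    · rintro ⟨h1, h2⟩
      exact ⟨h1, (h.iff n h1 t).2 h2⟩
  rw [e, Set.ncard_coe_finset, Nat.card_Icc, Nat.add_sub_cancel]

lemma Cnt.SP_fin (T α β : ℝ) : (SP A T α β).Finite := by
  refine Set.Finite.of_injOn (f := fun p : ℝ × ℝ => NZ p.1) (t := {n : ℕ | n ≤ NZ T}) ?_ ?_
    (Set.finite_le_nat _)
  · rintro p ⟨h1, h2, h3, -⟩
    exact h.mono (h1.1.le.trans h3)
  · rintro p ⟨h1, h2, h3, -⟩ q ⟨h1', h2', h3', -⟩ hpq
    obtain ⟨-, a1, a2⟩ := h.of_pair h1 h2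
    obtain ⟨-, b1, b2⟩ := h.of_pair h1' h2'
    have hpq' : NZ p.1 = NZ q.1 := hpq
    rw [hpq'] at a1 a2
    exact Prod.ext (a1.symm.trans b1) (a2.symm.trans b2)

end

end Pool.Agent.U663.SpL
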