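import Pool.Agent.U663.SpL.Abs

set_option autoImplicit false

/-!
# Spacing laws: comparison of the two normalisations
-/

namespace Pool.Agent.U663.SpL

open Filter Topology Set

section

variable {NZ : ℝ → ℕ} {γ : ℕ → ℝ} {A : Set ℝ} (h : Cnt NZ γ A)

/-- the comparison of the logarithms -/
lemma logs {α β ε T y : ℝ} (hε : 0 < ε) (hεα : ε < α) (hαβ : α ≤ β) (hT : Real.exp 8 ≤ T)
    (hT1 : (β + ε) * (Real.log (2 * Real.pi) + Real.log (Real.log T)) ≤ ε * Real.log T)
    (hy : T / Real.log T < y) (hy2 : y ≤ T) :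
    0 < Real.log (y / (2 * Real.pi)) ∧ Real.log (y / (2 * Real.pi)) ≤ Real.log T ∧
    β * Real.log T ≤ (β + ε) * Real.log (y / (2 * Real.pi)) ∧
    (α - ε) * Real.log T ≤ α * Real.log (y / (2 * Real.pi)) := by
  have hpi := Real.pi_gt_three
  have hT0 : 0 < T := (Real.exp_pos 8).trans_le hT
  have hL : 8 ≤ Real.log T := (Real.le_log_iff_exp_le hT0).2 hT
  have hL0 : 0 < Real.log T := by linarith
  have hU : 0 < T / Real.log T := by positivity
  have hy0 : 0 < y := hU.trans hy
  have e : Real.log (y / (2 * Real.pi)) = Real.log y - Real.log (2 * Real.pi) :=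
    Real.log_div hy0.ne' (by positivity)
  have hlp : 0 < Real.log (2 * Real.pi) := Real.log_pos (by linarith)
  have h1 : Real.log y ≤ Real.log T := Real.log_le_log hy0 hy2
  have h2 : Real.log T - Real.log (Real.log T) ≤ Real.log y := by
    rw [← Real.log_div hT0.ne' hL0.ne']
    exact Real.log_le_log hU hy.le
  have hβ : 0 < β := by linarith
  have h3 : (β + ε) * (Real.log T - Real.log (2 * Real.pi) - Real.log (Real.log T)) ≤
      (β + ε) * Real.log (y / (2 * Real.pi)) := by
    rw [e]
    apply mul_le_mul_of_nonneg_left _ (by linarith)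
    linarith
  have h4 : β * Real.log T ≤ (β + ε) * Real.log (y / (2 * Real.pi)) := by nlinarith
  refine ⟨?_, by rw [e]; linarith, h4, ?_⟩
  · by_contra hcon
    push Not at hcon
    have : (β + ε) * Real.log (y / (2 * Real.pi)) ≤ 0 :=
      mul_nonpos_of_nonneg_of_nonpos (by linarith) hcon
    have : 0 < β * Real.log T := by positivity
    linarith
  · have hc : 0 ≤ Real.log (2 * Real.pi) + Real.log (Real.log T) := by
      have : 0 ≤ Real.log (Real.log T) := Real.log_nonneg (by linarith)
      linarith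
    have h5 : α * (Real.log (2 * Real.pi) + Real.log (Real.log T)) ≤ ε * Real.log T := by
      refine le_trans ?_ hT1
      exact mul_le_mul_of_nonneg_right (by linarith) hc
    have h6 : α * (Real.log T - Real.log (2 * Real.pi) - Real.log (Real.log T)) ≤
        α * Real.log (y / (2 * Real.pi)) := by
      rw [e]
      apply mul_le_mul_of_nonneg_left _ (by linarith)
      linarith
    nlinarith

lemma loglog_ev (B ε : ℝ) (hε : 0 < ε) : ∀ᶠ T : ℝ in atTop,
    B * (Real.log (2 * Real.pi) + Real.log (Real.log T)) ≤ ε * Real.log T := by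
  have h1 : Tendsto (fun x : ℝ => (Real.log (2 * Real.pi) + Real.log x) / x) atTop (𝓝 0) := by
    have h2 : Tendsto (fun x : ℝ => Real.log (2 * Real.pi) / x) atTop (𝓝 0) :=
      tendsto_const_nhds.div_atTop tendsto_id
    have h3 : Tendsto (fun x : ℝ => Real.log x / x) atTop (𝓝 0) := by
      have := Real.isLittleO_log_id_atTop.tendsto_div_nhds_zero
      exact this
    have h4 := h2.add h3
    rw [add_zero] at h4
    exact h4.congr fun x => by rw [add_div]
  have h2 : Tendsto (fun x : ℝ => B * ((Real.log (2 * Real.pi) + Real.log x) / x)) atTop (𝓝 0) := by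
    have := h1.const_mul B
    rwa [mul_zero] at this
  have h3 := (h2.comp Real.tendsto_log_atTop).eventually_lt_const hε
  filter_upwards [h3, eventually_gt_atTop (1 : ℝ)] with T h4 h5
  have hL : 0 < Real.log T := Real.log_pos h5
  have h6 : B * ((Real.log (2 * Real.pi) + Real.log (Real.log T)) / Real.log T) < ε := h4
  rw [← mul_div_assoc, div_lt_iff₀ hL] at h6
  exact h6.le

include h

lemma Cnt.small (ε : ℝ) (hε : 0 < ε) : ∀ᶠ T : ℝ in atTop,
    (NZ (T / Real.log T) : ℝ) + 1 ≤ ε * (T * Real.log T) := by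
  obtain ⟨C, T0, hC⟩ := h.asy
  have h1 : Tendsto (fun T : ℝ => T / Real.log T) atTop atTop := by
    have h2 : Tendsto (fun T : ℝ => Real.log T / T) atTop (𝓝[>] 0) := by
      rw [tendsto_nhdsWithin_iff]
      refine ⟨Real.isLittleO_log_id_atTop.tendsto_div_nhds_zero, ?_⟩
      filter_upwards [eventually_gt_atTop (1 : ℝ)] with T hT
      exact div_pos (Real.log_pos hT) (by linarith)
    exact (h2.inv_tendsto_nhdsGT_zero).congr fun T => by rw [Pi.inv_apply, inv_div]
  filter_upwards [h1.eventually_ge_atTop (max T0 1), eventually_ge_atTop (Real.exp 1),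
    Real.tendsto_log_atTop.eventually_ge_atTop ((|C| + 2) / ε)] with T a1 a2 a3
  have hT0 : 0 < T := (Real.exp_pos 1).trans_le a2
  have hT1 : 1 < T := by
    have := Real.add_one_lt_exp (show (1 : ℝ) ≠ 0 by norm_num)
    linarith
  have hL : 1 ≤ Real.log T := (Real.le_log_iff_exp_le hT0).2 a2
  have hL0 : 0 < Real.log T := by linarith
  have hpi := Real.pi_gt_three
  have b1 := hC _ ((le_max_left _ _).trans a1)
  have b2 : 1 ≤ T / Real.log T := (le_max_right _ _).trans a1
  have b3 : X (T / Real.log T) ≤ T := by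
    unfold X
    have c1 : Real.log (T / Real.log T) ≤ Real.log T := by
      apply Real.log_le_log (by linarith)
      exact div_le_self hT0.le hL
    have c2 : T / Real.log T * Real.log (T / Real.log T) ≤ T := by
      calc T / Real.log T * Real.log (T / Real.log T) ≤ T / Real.log T * Real.log T :=
            mul_le_mul_of_nonneg_left c1 (by linarith)
        _ = T := div_mul_cancel₀ _ hL0.ne'
    rw [div_le_iff₀ (by positivity)]
    nlinarith
  have b4 : C * (T / Real.log T) ≤ |C| * T := by
    have c1 : T / Real.log T ≤ T := div_le_self hT0.le hL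
    calc C * (T / Real.log T) ≤ |C| * (T / Real.log T) :=
          mul_le_mul_of_nonneg_right (le_abs_self C) (by linarith)
      _ ≤ |C| * T := mul_le_mul_of_nonneg_left c1 (abs_nonneg C)
  have b5 := (abs_le.1 b1).2
  have b6 : (NZ (T / Real.log T) : ℝ) + 1 ≤ (|C| + 2) * T := by
    have : 1 ≤ T := hT1.le
    linarith
  refine b6.trans ?_
  rw [div_le_iff₀ hε] at a3
  calc (|C| + 2) * T ≤ (Real.log T * ε) * T := mul_le_mul_of_nonneg_right a3 hT0.le
    _ = ε * (T * Real.log T) := by ring

/-- from the indices to the pairs -/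
theorem Cnt.g_le {α β ε : ℝ} (hε : 0 < ε) (hεα : ε < α) (hαβ : α ≤ β) : ∀ᶠ T : ℝ in atTop,
    ((IN γ (NZ T) α β).ncard : ℝ) ≤ ((SP A T (α - ε) (β + ε)).ncard : ℝ) + ε * (T * Real.log T) := by
  filter_upwards [h.small ε hε, loglog_ev (β + ε) ε hε, eventually_ge_atTop (Real.exp 8)] with
    T a1 a2 a3
  have hpi := Real.pi_pos
  have hT0 : 0 < T := (Real.exp_pos 8).trans_le a3
  have hL : 8 ≤ Real.log T := (Real.le_log_iff_exp_le hT0).2 a3
  have hL0 : 0 < Real.log T := by linarith
  have hα : 0 < α := hε.trans hεα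
  -- the indices that are not small and not the last
  set I1 : Set ℕ := {n ∈ IN γ (NZ T) α β | T / Real.log T < γ n ∧ n ≠ NZ T} with hI1
  have hsub : IN γ (NZ T) α β ⊆ (I1 ∪ {n : ℕ | 1 ≤ n ∧ γ n ≤ T / Real.log T}) ∪ {NZ T} := by
    intro n hn
    by_cases c1 : γ n ≤ T / Real.log T
    · exact Or.inl (Or.inr ⟨hn.1, c1⟩)
    · push Not at c1
      by_cases c2 : n = NZ T
      · exact Or.inr c2
      · exact Or.inl (Or.inl ⟨hn, c1, c2⟩)
  have hI1f : I1.Finite := (IN_fin γ (NZ T) α β).subset fun n hn => hn.1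
  have c1 : (IN γ (NZ T) α β).ncard ≤ I1.ncard + NZ (T / Real.log T) + 1 := by
    have k1 := Set.ncard_le_ncard hsub ((hI1f.union (h.NZ_fin _)).union (Set.finite_singleton _))
    have k2 := Set.ncard_union_le (I1 ∪ {n : ℕ | 1 ≤ n ∧ γ n ≤ T / Real.log T}) {NZ T}
    have k3 := Set.ncard_union_le I1 {n : ℕ | 1 ≤ n ∧ γ n ≤ T / Real.log T}
    rw [Set.ncard_singleton] at k2
    rw [h.NZ_card] at k3
    omega
  have c2 : I1.ncard ≤ (SP A T (α - ε) (β + ε)).ncard := by
    have hpos : ∀ n ∈ I1, γ n < γ (n + 1) := by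
      rintro n ⟨⟨d1, d2, d3⟩, d4, d5⟩
      have d6 : γ n ≤ T := (h.iff n d1 T).2 d2
      have hl := logs (y := γ n) hε hεα hαβ a3 a2 d4 d6
      by_contra hcon
      push Not at hcon
      have : dl γ n ≤ 0 := by
        unfold dl
        exact mul_nonpos_of_nonpos_of_nonneg (div_nonpos_of_nonpos_of_nonneg (by linarith)
          (by positivity)) hl.1.le
      linarith [d3.1]
    refine Set.ncard_le_ncard_of_injOn (fun n => (γ n, γ (n + 1))) ?_ ?_ (h.SP_fin _ _ _)
    · rintro n hn
      have hlt := hpos n hn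
      obtain ⟨⟨d1, d2, d3⟩, d4, d5⟩ := hn
      have d6 : γ n ≤ T := (h.iff n d1 T).2 d2
      have d7 : γ (n + 1) ≤ T := (h.iff (n + 1) (by omega) T).2 (by omega)
      obtain ⟨l1, l2, l3, l4⟩ := logs (y := γ n) hε hεα hαβ a3 a2 d4 d6
      have hg : 0 < γ (n + 1) - γ n := by linarith
      have e1 : dl γ n = (γ (n + 1) - γ n) / (2 * Real.pi) * Real.log (γ n / (2 * Real.pi)) := rfl
      obtain ⟨d8, d9⟩ := d3
      rw [e1] at d8 d9
      have hq : 0 < (γ (n + 1) - γ n) / (2 * Real.pi) := by positivity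
      refine ⟨h.to_pair d1 hlt, h.pos n d1, d7, ?_, ?_⟩
      · show α - ε ≤ (γ (n + 1) - γ n) * (Real.log T / (2 * Real.pi))
        have e2 : (γ (n + 1) - γ n) * (Real.log T / (2 * Real.pi)) =
            (γ (n + 1) - γ n) / (2 * Real.pi) * Real.log T := by ring
        rw [e2]
        have := mul_le_mul_of_nonneg_left l2 hq.le
        linarith
      · show (γ (n + 1) - γ n) * (Real.log T / (2 * Real.pi)) ≤ β + ε
        have e2 : (γ (n + 1) - γ n) * (Real.log T / (2 * Real.pi)) =
            (γ (n + 1) - γ n) / (2 * Real.pi) * Real.log T := by ring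
        rw [e2]
        set q := (γ (n + 1) - γ n) / (2 * Real.pi) with hqd
        set w := Real.log (γ n / (2 * Real.pi)) with hwd
        have k1 : q * (β * Real.log T) ≤ q * ((β + ε) * w) := mul_le_mul_of_nonneg_left l3 hq.le
        have k2 : q * ((β + ε) * w) ≤ (β + ε) * β := by
          have : (β + ε) * (q * w) ≤ (β + ε) * β := mul_le_mul_of_nonneg_left d9 (by linarith)
          linarith
        have hβ : 0 < β := by linarith
        have k3 : β * (q * Real.log T) ≤ β * (β + ε) := by linarith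
        exact le_of_mul_le_mul_left k3 hβ
    · intro n hn m hm hnm
      have hnm' : γ n = γ m := congrArg Prod.fst hnm
      exact h.inj hn.1.1 hm.1.1 (hpos n hn) (hpos m hm) hnm'
  have c3 : ((IN γ (NZ T) α β).ncard : ℝ) ≤ ((SP A T (α - ε) (β + ε)).ncard : ℝ) +
      ((NZ (T / Real.log T) : ℝ) + 1) := by
    have : (IN γ (NZ T) α β).ncard ≤ (SP A T (α - ε) (β + ε)).ncard + (NZ (T / Real.log T) + 1) := by
      omega
    exact_mod_cast this
  linarith

/-- from the pairs to the indices -/
theorem Cnt.f_le {α β ε : ℝ} (hε : 0 < ε) (hεα : ε < α) (hαβ : α ≤ β) : ∀ᶠ T : ℝ in atTop,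
    ((SP A T α β).ncard : ℝ) ≤ ((IN γ (NZ T) (α - ε) (β + ε)).ncard : ℝ) + ε * (T * Real.log T) := by
  filter_upwards [h.small ε hε, loglog_ev (β + ε) ε hε, eventually_ge_atTop (Real.exp 8)] with
    T a1 a2 a3
  have hpi := Real.pi_pos
  have hT0 : 0 < T := (Real.exp_pos 8).trans_le a3
  have hL : 8 ≤ Real.log T := (Real.le_log_iff_exp_le hT0).2 a3
  have hL0 : 0 < Real.log T := by linarith
  have hα : 0 < α := hε.trans hεα
  have c1 : (SP A T α β).ncard ≤
      (IN γ (NZ T) (α - ε) (β + ε) ∪ {n : ℕ | 1 ≤ n ∧ γ n ≤ T / Real.log T}).ncard := by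
    refine Set.ncard_le_ncard_of_injOn (fun p => NZ p.1) ?_ ?_
      ((IN_fin γ _ _ _).union (h.NZ_fin _))
    · rintro p ⟨h1, h2, h3, h4, h5⟩
      obtain ⟨b1, b2, b3⟩ := h.of_pair h1 h2
      by_cases hs : p.1 ≤ T / Real.log T
      · exact Or.inr ⟨b1, by rw [b2]; exact hs⟩
      · push Not at hs
        refine Or.inl ⟨b1, h.mono (h1.1.le.trans h3), ?_⟩
        obtain ⟨l1, l2, l3, l4⟩ := logs (y := p.1) hε hεα hαβ a3 a2 hs (h1.1.le.trans h3)
        have e1 : dl γ (NZ p.1) = (p.2 - p.1) / (2 * Real.pi) * Real.log (p.1 / (2 * Real.pi)) := by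
          unfold dl
          rw [b3, b2]
        have hg : 0 < p.2 - p.1 := by linarith [h1.1]
        have hq : 0 < (p.2 - p.1) / (2 * Real.pi) := by positivity
        have e2 : (p.2 - p.1) * (Real.log T / (2 * Real.pi)) =
            (p.2 - p.1) / (2 * Real.pi) * Real.log T := by ring
        rw [e2] at h4 h5
        show dl γ (NZ p.1) ∈ Icc (α - ε) (β + ε)
        rw [e1]
        set q := (p.2 - p.1) / (2 * Real.pi) with hqd
        set w := Real.log (p.1 / (2 * Real.pi)) with hwd
        constructor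
        · -- `(α - ε) L ≤ α w`, `α ≤ q L`
          have k1 : α * (α - ε) ≤ q * Real.log T * (α - ε) :=
            mul_le_mul_of_nonneg_right h4 (by linarith)
          have k2 : q * ((α - ε) * Real.log T) ≤ q * (α * w) := mul_le_mul_of_nonneg_left l4 hq.le
          have k3 : α * (α - ε) ≤ α * (q * w) := by linarith
          exact le_of_mul_le_mul_left k3 hα
        · have := mul_le_mul_of_nonneg_left l2 hq.le
          linarith
    · rintro p ⟨h1, h2, h3, -⟩ q ⟨h1', h2', h3', -⟩ hpq
      obtain ⟨-, b1, b2⟩ := h.of_pair h1 h2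
      obtain ⟨-, d1, d2⟩ := h.of_pair h1' h2'
      have hpq' : NZ p.1 = NZ q.1 := hpq
      rw [hpq'] at b1 b2
      exact Prod.ext (b1.symm.trans d1) (b2.symm.trans d2)
  have c2 := Set.ncard_union_le (IN γ (NZ T) (α - ε) (β + ε)) {n : ℕ | 1 ≤ n ∧ γ n ≤ T / Real.log T}
  rw [h.NZ_card] at c2
  have c3 : ((SP A T α β).ncard : ℝ) ≤ ((IN γ (NZ T) (α - ε) (β + ε)).ncard : ℝ) +
      (NZ (T / Real.log T) : ℝ) := by
    exact_mod_cast c1.trans c2
  linarith

/-- the number of zeros -/
lemma Cnt.NZ_lim : Tendsto (fun T => (NZ T : ℝ) / X T) atTop (𝓝 1) := by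
  obtain ⟨C, T0, hC⟩ := h.asy
  have hpi := Real.pi_pos
  have h1 : Tendsto (fun T : ℝ => |C| * (2 * Real.pi) / Real.log T) atTop (𝓝 0) :=
    tendsto_const_nhds.div_atTop Real.tendsto_log_atTop
  have h2 : Tendsto (fun T => (NZ T : ℝ) / X T - 1) atTop (𝓝 0) := by
    refine squeeze_zero_norm' ?_ h1
    filter_upwards [eventually_ge_atTop T0, eventually_gt_atTop (1 : ℝ)] with T a1 a2
    have hX := X_pos a2
    have hL := Real.log_pos a2
    have b1 := hC T a1
    have e1 : (NZ T : ℝ) / X T - 1 = ((NZ T : ℝ) - X T) / X T := by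
      field_simp
    rw [e1, Real.norm_eq_abs, abs_div, abs_of_pos hX, div_le_iff₀ hX]
    have e2 : |C| * (2 * Real.pi) / Real.log T * X T = |C| * T := by
      unfold X
      field_simp
    rw [e2]
    exact b1.trans (mul_le_mul_of_nonneg_right (le_abs_self C) (by linarith))
  have h3 := h2.add_const 1
  rw [zero_add] at h3
  exact h3.congr fun T => by ring

omit h in
lemma X_atTop' : Tendsto X atTop atTop := by
  have hpi := Real.pi_pos
  have h1 : Tendsto (fun T : ℝ => T * Real.log T) atTop atTop :=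
    tendsto_id.atTop_mul_atTop₀ Real.tendsto_log_atTop
  exact h1.atTop_div_const (by positivity)

lemma Cnt.NZ_top : Tendsto NZ atTop atTop := by
  have h1 : Tendsto (fun T => (NZ T : ℝ)) atTop atTop := by
    have h2 := h.NZ_lim.pos_mul_atTop one_pos X_atTop'
    refine h2.congr' ?_
    filter_upwards [eventually_gt_atTop (1 : ℝ)] with T hT
    have := X_pos hT
    field_simp
  exact tendsto_natCast_atTop_iff.1 h1

lemma Cnt.ord_top : Tendsto γ atTop atTop := by
  rw [tendsto_atTop]
  intro b
  filter_upwards [eventually_ge_atTop (NZ b + 1)] with n hn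
  have := (h.lt_iff (n := n) (by omega) b).2 (by omega)
  exact this.le

/-- the law for indices and for heights -/
theorem Cnt.law_iff (α β c : ℝ) :
    Tendsto (fun N : ℕ => (1 / N : ℝ) * ((IN γ N α β).ncard : ℝ)) atTop (𝓝 c) ↔
      Tendsto (fun T : ℝ => ((IN γ (NZ T) α β).ncard : ℝ) / X T) atTop (𝓝 c) := by
  constructor
  · intro h1
    have h2 := (h1.comp h.NZ_top).mul h.NZ_lim
    rw [mul_one] at h2
    refine h2.congr' ?_
    filter_upwards [h.NZ_top.eventually_gt_atTop 0] with T hT
    have : (0 : ℝ) < NZ T := by exact_mod_cast hT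
    simp only [Function.comp_apply]
    field_simp
  · intro h1
    -- `N` and `NZ (γ N)`
    obtain ⟨C, T0, hC⟩ := h.asy
    have hpi := Real.pi_gt_three
    have hd : Tendsto (fun N : ℕ => ((NZ (γ N) : ℝ) - N) / X (γ N)) atTop (𝓝 0) := by
      have k1 : Tendsto (fun T : ℝ => (2 * |C| + 1) * (2 * Real.pi) / Real.log T) atTop (𝓝 0) :=
        tendsto_const_nhds.div_atTop Real.tendsto_log_atTop
      refine squeeze_zero_norm' ?_ (k1.comp h.ord_top)
      filter_upwards [h.ord_top.eventually_ge_atTop (max (T0 + 1) 3), eventually_ge_atTop 1] with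
        N a1 a2
      obtain ⟨T, hT⟩ : ∃ T, T = γ N := ⟨_, rfl⟩
      rw [Function.comp_apply, ← hT]
      rw [← hT] at a1
      have b1 : T0 + 1 ≤ T := (le_max_left _ _).trans a1
      have b2 : 3 ≤ T := (le_max_right _ _).trans a1
      have b3 : N ≤ NZ T := (h.iff N a2 T).1 hT.ge
      have b4 : NZ (T - 1) < N := (h.lt_iff a2 _).1 (by rw [← hT]; linarith)
      have b3' : (N : ℝ) ≤ NZ T := by exact_mod_cast b3
      have b4' : (NZ (T - 1) : ℝ) < N := by exact_mod_cast b4
      have c1 := (abs_le.1 (hC T (by linarith))).2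
      have c2 := (abs_le.1 (hC (T - 1) (by linarith))).1
      have hX := X_pos (show 1 < T by linarith)
      have hL : 0 < Real.log T := Real.log_pos (by linarith)
      have c3 : X T - X (T - 1) ≤ T := by
        unfold X
        have hl : Real.log T - Real.log (T - 1) ≤ 1 / (T - 1) := by
          rw [← Real.log_div (by linarith) (by linarith)]
          have e1 : T / (T - 1) = 1 + 1 / (T - 1) := by
            have : T - 1 ≠ 0 := by linarith
            field_simp
            ring
          rw [e1]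
          have := Real.log_le_sub_one_of_pos (show 0 < 1 + 1 / (T - 1) by
            have : 0 < T - 1 := by linarith
            positivity)
          linarith
        have hl2 : Real.log T ≤ T - 1 := Real.log_le_sub_one_of_pos (by linarith)
        have hm : (T - 1) * (Real.log T - Real.log (T - 1)) ≤ 1 := by
          have h0 : 0 < T - 1 := by linarith
          calc (T - 1) * (Real.log T - Real.log (T - 1)) ≤ (T - 1) * (1 / (T - 1)) :=
                mul_le_mul_of_nonneg_left hl h0.le
            _ = 1 := mul_one_div_cancel h0.ne'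
        rw [← sub_div, div_le_iff₀ (by positivity)]
        nlinarith
      have d1 : (NZ T : ℝ) - N ≤ (2 * |C| + 1) * T := by
        have k2 : C * T ≤ |C| * T := mul_le_mul_of_nonneg_right (le_abs_self C) (by linarith)
        have k3 : C * (T - 1) ≤ |C| * T := by
          calc C * (T - 1) ≤ |C| * (T - 1) :=
                mul_le_mul_of_nonneg_right (le_abs_self C) (by linarith)
            _ ≤ |C| * T := mul_le_mul_of_nonneg_left (by linarith) (abs_nonneg C)
        linarith
      rw [Real.norm_eq_abs, abs_div, abs_of_pos hX, abs_of_nonneg (by linarith), div_le_iff₀ hX]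
      have e2 : (2 * |C| + 1) * (2 * Real.pi) / Real.log T * X T = (2 * |C| + 1) * T := by
        unfold X
        field_simp
      rw [e2]
      exact d1
    have hr : Tendsto (fun N : ℕ => (N : ℝ) / X (γ N)) atTop (𝓝 1) := by
      have k1 := (h.NZ_lim.comp h.ord_top).sub hd
      rw [sub_zero] at k1
      refine k1.congr fun N => ?_
      simp only [Function.comp_apply]
      ring
    have hr' : Tendsto (fun N : ℕ => X (γ N) / N) atTop (𝓝 1) := by
      have k1 := hr.inv₀ one_ne_zero
      rw [inv_one] at k1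
      exact k1.congr fun N => by rw [inv_div]
    have hlow : Tendsto (fun N : ℕ => (((IN γ (NZ (γ N)) α β).ncard : ℝ) / X (γ N) -
        ((NZ (γ N) : ℝ) - N) / X (γ N)) * (X (γ N) / N)) atTop (𝓝 c) := by
      have k1 := ((h1.comp h.ord_top).sub hd).mul hr'
      rw [sub_zero, mul_one] at k1
      exact k1
    have hupp : Tendsto (fun N : ℕ => ((IN γ (NZ (γ N)) α β).ncard : ℝ) / X (γ N) *
        (X (γ N) / N)) atTop (𝓝 c) := by
      have k1 := (h1.comp h.ord_top).mul hr'
      rw [mul_one] at k1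
      exact k1
    refine tendsto_of_tendsto_of_tendsto_of_le_of_le' hlow hupp ?_ ?_
    · filter_upwards [h.ord_top.eventually_gt_atTop 1, eventually_ge_atTop 1] with N a1 a2
      have hX := X_pos a1
      have hN : (0 : ℝ) < N := by exact_mod_cast a2
      have b3 : N ≤ NZ (γ N) := (h.iff N a2 _).1 le_rfl
      have hsub : IN γ (NZ (γ N)) α β ⊆ IN γ N α β ∪ ↑(Finset.Ioc N (NZ (γ N))) := by
        intro n hn
        by_cases hc : n ≤ N
        · exact Or.inl ⟨hn.1, hc, hn.2.2⟩
        · refine Or.inr ?_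
          rw [Finset.coe_Ioc]
          exact ⟨by omega, hn.2.1⟩
      have k1 := (Set.ncard_le_ncard hsub ((IN_fin γ N α β).union (Finset.finite_toSet _))).trans
        (Set.ncard_union_le _ _)
      rw [Set.ncard_coe_finset, Nat.card_Ioc] at k1
      have k2 : ((IN γ (NZ (γ N)) α β).ncard : ℝ) ≤ ((IN γ N α β).ncard : ℝ) +
          ((NZ (γ N) : ℝ) - N) := by
        rw [← Nat.cast_sub b3]
        exact_mod_cast k1
      rw [← sub_div, div_mul_div_cancel₀ hX.ne', one_div, inv_mul_eq_div]
      apply div_le_div_of_nonneg_right _ hN.le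
      linarith
    · filter_upwards [h.ord_top.eventually_gt_atTop 1, eventually_ge_atTop 1] with N a1 a2
      have hX := X_pos a1
      have hN : (0 : ℝ) < N := by exact_mod_cast a2
      have b3 : N ≤ NZ (γ N) := (h.iff N a2 _).1 le_rfl
      have hsub : IN γ N α β ⊆ IN γ (NZ (γ N)) α β := fun n hn =>
        ⟨hn.1, hn.2.1.trans b3, hn.2.2⟩
      have k1 := Set.ncard_le_ncard hsub (IN_fin γ _ α β)
      rw [div_mul_div_cancel₀ hX.ne', one_div, inv_mul_eq_div]
      apply div_le_div_of_nonneg_right _ hN.le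
      exact_mod_cast k1

/-- **The law for the unfolded gaps and the law for the pairs up to `T` are equivalent.** -/
theorem Cnt.spacing_iff {F : ℝ → ℝ} (hF : ContinuousOn F (Ioi 0)) :
    (∀ α β : ℝ, 0 < α → α < β →
      Tendsto (fun N : ℕ => (1 / N : ℝ) * ((IN γ N α β).ncard : ℝ)) atTop (𝓝 (F β - F α))) ↔
    ∀ α β : ℝ, 0 < α → α < β →
      Tendsto (fun T : ℝ => ((SP A T α β).ncard : ℝ) / X T) atTop (𝓝 (F β - F α)) := by
  have h1 : ∀ α β ε : ℝ, 0 < ε → ε < α → ∀ᶠ T : ℝ in atTop,
      ((IN γ (NZ T) α β).ncard : ℝ) ≤ ((SP A T (α - ε) (β + ε)).ncard : ℝ) +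
        ε * (T * Real.log T) := by
    intro α β ε hε hεα
    rcases le_or_gt α β with hab | hab
    · exact h.g_le hε hεα hab
    · filter_upwards [eventually_gt_atTop (1 : ℝ)] with T hT
      have e : IN γ (NZ T) α β = ∅ := by
        apply Set.eq_empty_of_forall_notMem
        rintro n ⟨-, -, a, b⟩
        linarith
      rw [e, Set.ncard_empty, Nat.cast_zero]
      have := Real.log_pos hT
      positivity
  have h2 : ∀ α β ε : ℝ, 0 < ε → ε < α → ∀ᶠ T : ℝ in atTop,
      ((SP A T α β).ncard : ℝ) ≤ ((IN γ (NZ T) (α - ε) (β + ε)).ncard : ℝ) +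
        ε * (T * Real.log T) := by
    intro α β ε hε hεα
    rcases le_or_gt α β with hab | hab
    · exact h.f_le hε hεα hab
    · filter_upwards [eventually_gt_atTop (1 : ℝ)] with T hT
      have e : SP A T α β = ∅ := by
        apply Set.eq_empty_of_forall_notMem
        rintro p ⟨-, -, -, a, b⟩
        linarith
      rw [e, Set.ncard_empty, Nat.cast_zero]
      have := Real.log_pos hT
      positivity
  constructor
  · intro hL α β hα hβ
    exact transfer (f := fun T a b => ((IN γ (NZ T) a b).ncard : ℝ))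
      (g := fun T a b => ((SP A T a b).ncard : ℝ)) hF h2 h1
      (fun a b ha hb => (h.law_iff a b _).1 (hL a b ha hb)) hα hβ
  · intro hL α β hα hβ
    rw [h.law_iff]
    exact transfer (f := fun T a b => ((SP A T a b).ncard : ℝ))
      (g := fun T a b => ((IN γ (NZ T) a b).ncard : ℝ)) hF h1 h2 hL hα hβ

end

end Pool.Agent.U663.SpL
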